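import Pool.Agent.MWA.Stmts

set_option autoImplicit false

namespace Pool.Agent.MWA.H77

open Pool.Agent.Helper14_MV Pool.Agent.Helper2_MV Pool.Agent.MVO Pool.Agent.MWL Pool.Agent.MWS

theorem ica (hF : MVO.FmaStmt) : IcaStmt := by
  intro β h
  have h1 : RR β [0, 1, 0, 1] [0, 0, 1, 1] := hF β h.cl [0] [1] 1 0 (by simp) (by simp)
  have h2 : RR β [1, 0, 1, 0] [1, 1, 0, 0] := hF β h.cl [1] [0] 0 1 (by simp) (by simp)
  exact ⟨h.ap, β.trans h1 (β.trans h.r0 h2.symm)⟩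

end Pool.Agent.MWA.H77
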